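import Pool.Agent.QSB.StmtsS

set_option autoImplicit false

/-!
# QSB, row MRA (assembly)
-/

namespace Pool.Agent.QSB.H1

open Matrix Finset Pool.Agent.QSX

/-- The equivalence relation of the components. -/
def sd {X : Dat} (R : RBas X) : Setoid R.ι :=
  Relation.EqvGen.setoid (fun l l' => ip X (R.rt l) (R.rt l') ≠ 0)

theorem mra (hGwb : GwbStmt) (hRys : RysStmt) (hGem : GemStmt) (hClb : ClbStmt) (hScb : ScbStmt)
    (hRkb : RkbStmt) : MraStmt := by
  classical
  intro X hS R hNR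
  obtain ⟨S⟩ := hS
  have hrv : ∀ l, RtV X (R.rt l) (R.e l) := by
    intro l
    refine ⟨⟨?_, R.wt l⟩, R.lin.ne_zero l⟩
    rw [← R.span_e]
    exact Submodule.subset_span ⟨l, rfl⟩
  have hpos : ∀ l, 0 < R.rt l S.a₀ := fun l => ((hGwb X S).1 (R.rt l) (R.e l) (hrv l)).2
  have hne : ∀ l, R.rt l ≠ 0 := by
    intro l h
    have h1 := hpos l
    rw [h] at h1
    simp at h1
  have hiff : ∀ l l', (Quotient.mk (sd R) l = Quotient.mk (sd R) l') ↔ R.Eqv l l' := by
    intro l l'
    exact ⟨fun h => Quotient.exact h, fun h => Quotient.sound h⟩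
  have htop : ∀ j : Quotient (sd R), ∃ θ : R.ι, Quotient.mk (sd R) θ = j ∧
      ∀ k, Quotient.mk (sd R) k = j → R.rt k S.a₀ ≤ R.rt θ S.a₀ := by
    intro j
    obtain ⟨l0, hl0⟩ := Quotient.exists_rep j
    obtain ⟨θ, hθ, hmax⟩ := Finset.exists_max_image
      (Finset.univ.filter fun k : R.ι => Quotient.mk (sd R) k = j) (fun k => R.rt k S.a₀)
      ⟨l0, Finset.mem_filter.2 ⟨Finset.mem_univ _, hl0⟩⟩
    exact ⟨θ, (Finset.mem_filter.1 hθ).2, fun k hk =>
      hmax k (Finset.mem_filter.2 ⟨Finset.mem_univ _, hk⟩)⟩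
  choose top htop1 htop2 using htop
  refine ⟨{ ι := R.ι, fin := R.fin, dec := R.dec, e := R.e, rat := R.rat, span_e := R.span_e,
            lin := R.lin, rt := R.rt, wt := R.wt, pos := ⟨S.a₀, hpos⟩, sep := R.sep,
            ray := ?_, gen := hGem X ⟨S⟩ R, J := Quotient (sd R), comp := Quotient.mk (sd R),
            top := top, comp_top := fun l => htop1 _, comp_rt := ?_, climb := ?_, rank1 := ?_,
            scal := ?_ }⟩
  · intro l l' c h
    have h1 : IsRt X (c • R.rt l') := by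
      rw [← h]
      exact ⟨R.e l, hrv l⟩
    rcases hRys X ⟨S⟩ (R.rt l') c ⟨R.e l', hrv l'⟩ h1 with h2 | h2 | h2
    · exact Or.inr (Or.inl h2)
    · exact Or.inr (Or.inr h2)
    · exact Or.inl h2
  · intro l l' c h
    rw [hiff]
    apply Relation.EqvGen.rel
    have hc : c ≠ 0 := by
      intro hc
      rw [hc, zero_smul] at h
      exact hne l h
    rw [h, ip_smul_left]
    exact mul_ne_zero hc (ip_self_pos (hne l')).ne'
  · intro l hl x hx hk
    refine hClb X S R hNR l (top (Quotient.mk (sd R) l)) ?_ ?_ hl x hx hk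
    · rw [← hiff]
      exact (htop1 _).symm
    · intro k hk'
      apply htop2
      rw [hiff]
      exact Relation.EqvGen.symm _ _ hk'
  · intro l hl l' hl'
    refine hRkb X R hNR l ?_ l' ((hiff l' l).1 hl')
    intro l'' h''
    exact hl l'' ((hiff l'' l).2 h'')
  · intro κ _
    refine hScb X R (fun l => κ (Quotient.mk (sd R) l)) ?_
    intro l l' h
    show κ (Quotient.mk (sd R) l) = κ (Quotient.mk (sd R) l')
    rw [(hiff l l').2 (Relation.EqvGen.rel _ _ h)]

end Pool.Agent.QSB.H1
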